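import Pool.Agent.Lib.MP_b414a3_an.LP.Dom0

set_option autoImplicit false

namespace Pool.Agent.Lib.MP_b414a3_an.LP

open scoped InnerProductSpace Topology Gradient

variable {H : Type*} [NormedAddCommGroup H] [InnerProductSpace ℝ H]

/-- At an interior point `y` of the domain of the conjugate, `f - ⟪·, y⟫` grows at least linearly. -/
theorem interior_dom [CompleteSpace H] {f : H → ℝ} {y : H} (hy : y ∈ interior (dom f)) :
    ∃ r B : ℝ, 0 < r ∧ ∀ x, ⟪x, y⟫_ℝ + r * ‖x‖ - B ≤ f x := by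
  obtain ⟨s, hs, hsd⟩ := Metric.mem_nhds_iff.1 (mem_interior_iff_mem_nhds.1 hy)
  let F : ℕ → Set H := fun n => {z | ∀ x : H, ⟪x, z⟫_ℝ - f x ≤ n} ∪ (Metric.ball y s)ᶜ
  have hF : ∀ n, IsClosed (F n) := by
    intro n
    refine IsClosed.union ?_ Metric.isOpen_ball.isClosed_compl
    have h1 : {z : H | ∀ x : H, ⟪x, z⟫_ℝ - f x ≤ n} = ⋂ x : H, {z : H | ⟪x, z⟫_ℝ - f x ≤ n} := by
      ext z
      simp
    rw [h1]
    exact isClosed_iInter fun x => isClosed_le (by fun_prop) continuous_const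
  have hFu : ⋃ n, F n = Set.univ := by
    refine Set.eq_univ_of_forall fun z => ?_
    by_cases hz : z ∈ Metric.ball y s
    · obtain ⟨M, hM⟩ := hsd hz
      obtain ⟨n, hn⟩ := exists_nat_ge M
      exact Set.mem_iUnion.2 ⟨n, Or.inl fun x => (hM ⟨x, rfl⟩).trans hn⟩
    · exact Set.mem_iUnion.2 ⟨0, Or.inr hz⟩
  have hd := dense_iUnion_interior_of_closed hF hFu
  obtain ⟨z₀, hz₀, hz₀'⟩ := hd.inter_open_nonempty _ Metric.isOpen_ball ⟨y, Metric.mem_ball_self hs⟩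
  obtain ⟨n, hn⟩ := Set.mem_iUnion.1 hz₀'
  obtain ⟨d, hd0, hdb⟩ := Metric.mem_nhds_iff.1
    (Filter.inter_mem (mem_interior_iff_mem_nhds.1 hn) (Metric.isOpen_ball.mem_nhds hz₀))
  have h0 : ∀ z ∈ Metric.ball z₀ d, ∀ x : H, ⟪x, z⟫_ℝ - f x ≤ n := by
    intro z hz
    obtain ⟨h1, h2⟩ := hdb hz
    rcases h1 with h1 | h1
    · exact h1
    · exact absurd h2 h1
  have hz₁ : (2 : ℝ) • y - z₀ ∈ Metric.ball y s := by
    rw [Metric.mem_ball, dist_eq_norm] at hz₀ ⊢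
    have e : (2 : ℝ) • y - z₀ - y = -(z₀ - y) := by module
    rw [e, norm_neg]
    exact hz₀
  obtain ⟨C, hC⟩ := hsd hz₁
  refine ⟨d / 4, (n + C) / 2, by positivity, fun x => ?_⟩
  obtain ⟨w, hw⟩ : ∃ w : H, w = (d / 2 * ‖x‖⁻¹) • x := ⟨_, rfl⟩
  have hw1 : ‖w‖ < d := by
    rw [hw, norm_smul, Real.norm_of_nonneg (by positivity), mul_assoc]
    have h1 : ‖x‖⁻¹ * ‖x‖ ≤ 1 := inv_mul_le_one
    nlinarith
  have hw2 : ⟪x, w⟫_ℝ = d / 2 * ‖x‖ := by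
    rw [hw, real_inner_smul_right, real_inner_self_eq_norm_sq]
    by_cases hx : ‖x‖ = 0
    · rw [hx]
      simp
    · field_simp
  have h1 : ⟪x, z₀ + w⟫_ℝ - f x ≤ n := h0 _ (by
    rw [Metric.mem_ball, dist_eq_norm, add_sub_cancel_left]
    exact hw1) x
  have h2 : ⟪x, (2 : ℝ) • y - z₀⟫_ℝ - f x ≤ C := hC ⟨x, rfl⟩
  rw [inner_add_right, hw2] at h1
  rw [inner_sub_right, real_inner_smul_right] at h2
  linarith

end Pool.Agent.Lib.MP_b414a3_an.LP
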