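import Pool.Agent.Lib.MP_b414a3_an.LP.Defs

/-! MP_b414a3_an, board LP: the gradient of a convex analytic function has a local analytic inverse at
every point where the function is locally strongly convex. -/

set_option autoImplicit false

namespace Pool.Agent.Lib.MP_b414a3_an.LP

open scoped InnerProductSpace Topology Gradient

open Filter

variable {H : Type*} [NormedAddCommGroup H] [InnerProductSpace ℝ H]

/-- the function of one variable -/
private theorem line_deriv [CompleteSpace H] {f : H → ℝ} {x u : H} {t : ℝ}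
    (hf : DifferentiableAt ℝ f (x + t • u)) :
    HasDerivAt (fun s : ℝ => f (x + s • u)) (⟪gradient f (x + t • u), u⟫_ℝ) t := by
  have hl : HasDerivAt (fun s : ℝ => x + s • u) u t := by
    have h1 := ((hasDerivAt_id t).smul_const u).const_add x
    simpa using h1
  have h1 : HasDerivAt (fun s : ℝ => f (x + s • u)) (fderiv ℝ f (x + t • u) u) t :=
    hf.hasFDerivAt.comp_hasDerivAt t hl
  have h4 : ⟪gradient f (x + t • u), u⟫_ℝ = fderiv ℝ f (x + t • u) u := inner_gradient_left
  rw [h4]
  exact h1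

private theorem line_convex {f : H → ℝ} (x u : H) (hcv : ConvexOn ℝ Set.univ f) :
    ConvexOn ℝ Set.univ (fun s : ℝ => f (x + s • u)) := by
  refine ⟨convex_univ, fun s _ t _ p r hp hr hpr => ?_⟩
  have h1 := hcv.2 (Set.mem_univ (x + s • u)) (Set.mem_univ (x + t • u)) hp hr hpr
  have h2 : p • (x + s • u) + r • (x + t • u) = x + (p • s + r • t) • u := by
    have h3 : x = (p + r) • x := by rw [hpr, one_smul]
    conv_rhs => rw [h3]
    simp only [smul_add, smul_smul, add_smul, smul_eq_mul]
    abel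
  rw [h2] at h1
  exact h1

/-- the gradient is above the difference quotient -/
private theorem slope_line [CompleteSpace H] {f : H → ℝ} {x u : H} {t : ℝ} (ht : 0 < t)
    (hf : DifferentiableAt ℝ f (x + t • u)) (hcv : ConvexOn ℝ Set.univ f) :
    f (x + t • u) - f x ≤ t * ⟪gradient f (x + t • u), u⟫_ℝ := by
  have hc := line_convex x u hcv
  have h2 := hc.slope_le_of_hasDerivAt (Set.mem_univ 0) (Set.mem_univ t) ht (line_deriv hf)
  rw [slope_def_field, zero_smul, add_zero, sub_zero, div_le_iff₀ ht] at h2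
  linarith

/-- K2 -/
theorem local_inverse_loc [CompleteSpace H] {f : H → ℝ} {x : H} (hf : AnalyticAt ℝ f x)
    (hcv : ConvexOn ℝ Set.univ f) (hq : Quad f x) :
    ∃ g : H → H, AnalyticAt ℝ g (gradient f x) ∧ g (gradient f x) = x ∧
      ∀ᶠ y in 𝓝 (gradient f x), AnalyticAt ℝ f (g y) ∧ gradient f (g y) = y := by
  obtain ⟨c, hc, hqc⟩ := hq
  have hev : ∀ᶠ z in 𝓝 x, AnalyticAt ℝ f z := hf.eventually_analyticAt
  -- the gradient is analytic
  have hF : AnalyticAt ℝ (gradient f) x := by
    have h1 : AnalyticAt ℝ (fderiv ℝ f) x := hf.fderiv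
    have h2 : AnalyticAt ℝ (fun z => (InnerProductSpace.toDual ℝ H).symm (fderiv ℝ f z)) x :=
      ((InnerProductSpace.toDual ℝ H).symm.toContinuousLinearEquiv.toContinuousLinearMap.analyticAt
        (fderiv ℝ f x)).comp h1
    exact h2
  have hS := hF.hasStrictFDerivAt
  set A : H →L[ℝ] H := fderiv ℝ (gradient f) x with hA
  -- coercivity
  have hco : ∀ u : H, c * ‖u‖ ^ 2 ≤ ⟪A u, u⟫_ℝ := by
    intro u
    have hl : HasDerivAt (fun s : ℝ => x + s • u) u 0 := by
      have h1 := ((hasDerivAt_id (0 : ℝ)).smul_const u).const_add x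
      simpa using h1
    have hx0 : x + (0 : ℝ) • u = x := by simp
    have h1 : HasDerivAt (fun s : ℝ => gradient f (x + s • u)) (A u) 0 := by
      have h2 : HasFDerivAt (gradient f) A (x + (0 : ℝ) • u) := by
        rw [hx0]
        exact hS.hasFDerivAt
      exact h2.comp_hasDerivAt 0 hl
    have h2 : HasDerivAt (fun s : ℝ => ⟪gradient f (x + s • u), u⟫_ℝ) (⟪A u, u⟫_ℝ) 0 := by
      have h3 := h1.inner ℝ (hasDerivAt_const (0 : ℝ) u)
      simpa using h3
    have h3 := h2.tendsto_slope_zero_right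
    have hcont : Tendsto (fun s : ℝ => x + s • u) (𝓝[>] 0) (𝓝 x) := by
      have h4 : Tendsto (fun s : ℝ => x + s • u) (𝓝 0) (𝓝 (x + (0 : ℝ) • u)) :=
        hl.continuousAt
      rw [hx0] at h4
      exact h4.mono_left nhdsWithin_le_nhds
    refine ge_of_tendsto h3 ?_
    filter_upwards [hcont.eventually hev, hcont.eventually hqc, self_mem_nhdsWithin] with t ht hqt ht0
    have ht1 : (0 : ℝ) < t := ht0
    have h4 := slope_line ht1 ht.differentiableAt hcv
    have h5 : x + t • u - x = t • u := by abel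
    rw [h5, real_inner_smul_right, norm_smul, Real.norm_eq_abs, abs_of_pos ht1, mul_pow] at hqt
    have h6 : t * (⟪gradient f x, u⟫_ℝ + c * t * ‖u‖ ^ 2) ≤
        t * ⟪gradient f (x + t • u), u⟫_ℝ := by
      have : t * (⟪gradient f x, u⟫_ℝ + c * t * ‖u‖ ^ 2) =
        t * ⟪gradient f x, u⟫_ℝ + c * (t ^ 2 * ‖u‖ ^ 2) := by ring
      rw [this]
      linarith
    have h7 := le_of_mul_le_mul_left h6 ht1
    rw [zero_add, hx0, smul_eq_mul, le_inv_mul_iff₀ ht1]
    linarith
  -- the derivative is invertible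
  let B : H →L[ℝ] H →L[ℝ] ℝ := (innerSL ℝ).comp A
  have hB : ∀ u v, B u v = ⟪A u, v⟫_ℝ := fun u v => rfl
  have hcB : IsCoercive B := by
    refine ⟨c, hc, fun u => ?_⟩
    rw [hB]
    have := hco u
    nlinarith
  let e : H ≃L[ℝ] H := hcB.continuousLinearEquivOfBilin
  have he : (e : H →L[ℝ] H) = A := by
    ext1 u
    refine ext_inner_right ℝ fun v => ?_
    have h1 : ⟪e u, v⟫_ℝ = B u v := hcB.continuousLinearEquivOfBilin_apply u v
    exact h1.trans (hB u v)
  have hS' : HasStrictFDerivAt (gradient f) (e : H →L[ℝ] H) x := by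
    rw [he]
    exact hS
  refine ⟨hS'.localInverse (gradient f) e x, ?_, hS'.localInverse_apply_image, ?_⟩
  · have h1 : fderiv ℝ (hS'.toOpenPartialHomeomorph (gradient f)) x = e := by
      rw [hS'.toOpenPartialHomeomorph_coe]
      exact he.symm
    exact (hS'.toOpenPartialHomeomorph (gradient f)).analyticAt_symm'
      hS'.mem_toOpenPartialHomeomorph_source hF h1
  · filter_upwards [hS'.eventually_right_inverse, hS'.localInverse_tendsto.eventually hev] with y h1 h2
    exact ⟨h2, h1⟩

end Pool.Agent.Lib.MP_b414a3_an.LP
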