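import Pool.Agent.Lib.MP_b414a3_an.LP.Dom0

set_option autoImplicit false

namespace Pool.Agent.Lib.MP_b414a3_an.LP

open scoped InnerProductSpace Topology Gradient

variable {H : Type*} [NormedAddCommGroup H] [InnerProductSpace ℝ H]

/-- the gradient at a point above whose tangent plane `f` grows quadratically is in the interior
of the domain of the conjugate -/
theorem quad_mem_interior [CompleteSpace H] {f : H → ℝ} {x : H} (hcv : ConvexOn ℝ Set.univ f)
    (hq : Quad f x) : gradient f x ∈ interior (dom f) := by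
  obtain ⟨c, hc, hq⟩ := hq
  obtain ⟨e, he, hq⟩ := Metric.eventually_nhds_iff.1 hq
  generalize hy : gradient f x = y at hq ⊢
  obtain ⟨d, hd, hde⟩ : ∃ d : ℝ, 0 < d ∧ d < e := ⟨e / 2, by linarith, by linarith⟩
  have hloc : ∀ z, ‖z - x‖ ≤ d → f x + ⟪y, z - x⟫_ℝ + c * ‖z - x‖ ^ 2 ≤ f z := by
    intro z hz
    apply hq
    rw [dist_eq_norm]
    linarith
  have hcd : 0 < c * d := mul_pos hc hd
  have hall : ∀ z, f x + ⟪y, z - x⟫_ℝ + c * d * ‖z - x‖ - c * d ^ 2 ≤ f z := by
    intro z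
    have hcd2 : 0 ≤ c * d ^ 2 := by positivity
    rcases le_total ‖z - x‖ d with h | h
    · have h1 := hloc z h
      have h2 : c * d * ‖z - x‖ ≤ c * d * d := mul_le_mul_of_nonneg_left h hcd.le
      have h3 : 0 ≤ c * ‖z - x‖ ^ 2 := by positivity
      nlinarith
    · have hR : 0 < ‖z - x‖ := hd.trans_le h
      obtain ⟨t, ht⟩ : ∃ t : ℝ, t = d / ‖z - x‖ := ⟨_, rfl⟩
      have ht0 : 0 < t := by rw [ht]; exact div_pos hd hR
      have ht1 : t ≤ 1 := by rw [ht]; exact (div_le_one hR).2 h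
      have htR : t * ‖z - x‖ = d := by rw [ht, div_mul_cancel₀ _ hR.ne']
      have hu : ‖(x + t • (z - x)) - x‖ = d := by
        rw [add_sub_cancel_left, norm_smul, Real.norm_eq_abs, abs_of_pos ht0, htR]
      have h1 := hloc (x + t • (z - x)) hu.le
      rw [hu, add_sub_cancel_left, inner_smul_right] at h1
      have h2 := hcv.2 (Set.mem_univ x) (Set.mem_univ z) (sub_nonneg.2 ht1) ht0.le (by ring)
      have h3 : (1 - t) • x + t • z = x + t • (z - x) := by
        rw [smul_sub, sub_smul, one_smul]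
        abel
      rw [h3] at h2
      simp only [smul_eq_mul] at h2
      have h5 : t * (c * d * ‖z - x‖) = c * d ^ 2 := by
        calc t * (c * d * ‖z - x‖) = c * d * (t * ‖z - x‖) := by ring
          _ = c * d ^ 2 := by rw [htR]; ring
      have h4 : t * (f x + ⟪y, z - x⟫_ℝ + c * d * ‖z - x‖) ≤ t * f z := by
        nlinarith
      have h6 := le_of_mul_le_mul_left h4 ht0
      linarith
  refine mem_interior_iff_mem_nhds.2
    (Filter.mem_of_superset (Metric.ball_mem_nhds y hcd) fun w hw => ?_)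
  refine ⟨⟪x, w⟫_ℝ - f x + c * d ^ 2, ?_⟩
  rintro _ ⟨z, rfl⟩
  have h1 := hall z
  have h0 : ‖w - y‖ ≤ c * d := by
    rw [Metric.mem_ball, dist_eq_norm] at hw
    exact hw.le
  have h2 : ⟪z - x, w - y⟫_ℝ ≤ ‖z - x‖ * (c * d) :=
    (real_inner_le_norm _ _).trans (mul_le_mul_of_nonneg_left h0 (norm_nonneg _))
  have h3 : ⟪z - x, w - y⟫_ℝ = ⟪z, w⟫_ℝ - ⟪x, w⟫_ℝ - ⟪y, z - x⟫_ℝ := by
    rw [inner_sub_right, inner_sub_left, real_inner_comm y]
  change ⟪z, w⟫_ℝ - f z ≤ _
  rw [h3] at h2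
  nlinarith

end Pool.Agent.Lib.MP_b414a3_an.LP
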