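import Pool.Agent.Lib.MP_b414a3_an.LP.Defs

/-! MP_b414a3_an, board LP: values and gradients of the conjugate. -/

set_option autoImplicit false

namespace Pool.Agent.Lib.MP_b414a3_an.LP

open scoped InnerProductSpace Topology Gradient

variable {H : Type*} [NormedAddCommGroup H] [InnerProductSpace ℝ H]

theorem tangent_le_val [CompleteSpace H] {f : H → ℝ} {x : H} (hcv : ConvexOn ℝ Set.univ f)
    (hd : DifferentiableAt ℝ f x) (z : H) : f x + ⟪gradient f x, z - x⟫_ℝ ≤ f z := by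
  have h1 : HasFDerivAt f (InnerProductSpace.toDual ℝ H (gradient f x)) x :=
    hd.hasGradientAt.hasFDerivAt
  have h2 : HasDerivAt (fun t : ℝ => f (x + t • (z - x)))
      ((InnerProductSpace.toDual ℝ H (gradient f x)) (z - x)) 0 := h1.hasLineDerivAt (z - x)
  rw [InnerProductSpace.toDual_apply_apply] at h2
  have h3 := h2.tendsto_slope_zero_right
  have h4 : ⟪gradient f x, z - x⟫_ℝ ≤ f z - f x := by
    refine le_of_tendsto h3 ?_
    have hI : Set.Ioo (0 : ℝ) 1 ∈ 𝓝[>] (0 : ℝ) := Ioo_mem_nhdsGT (by norm_num)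
    filter_upwards [hI] with t ht
    have h5 := hcv.2 (Set.mem_univ x) (Set.mem_univ z) (by linarith [ht.2] : (0 : ℝ) ≤ 1 - t)
      ht.1.le (by ring)
    have h6 : (1 - t) • x + t • z = x + t • (z - x) := by
      rw [smul_sub, sub_smul, one_smul]; abel
    rw [h6, smul_eq_mul, smul_eq_mul] at h5
    have h7 : t⁻¹ * (f (x + t • (z - x)) - f x) ≤ t⁻¹ * (t * (f z - f x)) :=
      mul_le_mul_of_nonneg_left (by linarith) (inv_nonneg.mpr ht.1.le)
    rw [← mul_assoc, inv_mul_cancel₀ ht.1.ne', one_mul] at h7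
    simpa using h7
  linarith

theorem conj_value [CompleteSpace H] {f : H → ℝ} {x y : H} (hcv : ConvexOn ℝ Set.univ f)
    (hd : DifferentiableAt ℝ f x) (hg : gradient f x = y) :
    conj f y = ⟪x, y⟫_ℝ - f x ∧ ∀ z, ⟪z, y⟫_ℝ - f z ≤ ⟪x, y⟫_ℝ - f x := by
  have h : ∀ z, ⟪z, y⟫_ℝ - f z ≤ ⟪x, y⟫_ℝ - f x := by
    intro z
    have h1 := tangent_le_val hcv hd z
    rw [hg, inner_sub_right, real_inner_comm, real_inner_comm x y] at h1
    linarith
  refine ⟨?_, h⟩
  refine IsGreatest.csSup_eq ⟨⟨x, rfl⟩, ?_⟩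
  rintro _ ⟨z, rfl⟩
  exact h z

theorem conj_bdd {f : H → ℝ} (hf : Superlinear f) (y : H) :
    BddAbove (Set.range fun x : H => ⟪x, y⟫_ℝ - f x) := by
  obtain ⟨B, hB⟩ := hf ‖y‖
  refine ⟨B, ?_⟩
  rintro _ ⟨x, rfl⟩
  have h1 := hB x
  have h2 := real_inner_le_norm x y
  show ⟪x, y⟫_ℝ - f x ≤ B
  nlinarith

theorem le_conj {f : H → ℝ} (hf : Superlinear f) (x y : H) : ⟪x, y⟫_ℝ - f x ≤ conj f y :=
  le_csSup (conj_bdd hf y) ⟨x, rfl⟩

theorem conj_convex {f : H → ℝ} (hf : Superlinear f) : ConvexOn ℝ Set.univ (conj f) := by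
  refine ⟨convex_univ, ?_⟩
  intro y₁ _ y₂ _ a b ha hb hab
  refine csSup_le (Set.range_nonempty _) ?_
  rintro _ ⟨x, rfl⟩
  have h1 := mul_le_mul_of_nonneg_left (le_conj hf x y₁) ha
  have h2 := mul_le_mul_of_nonneg_left (le_conj hf x y₂) hb
  have h3 : f x = a * f x + b * f x := by rw [← add_mul, hab, one_mul]
  show ⟪x, a • y₁ + b • y₂⟫_ℝ - f x ≤ a • conj f y₁ + b • conj f y₂
  rw [inner_add_right, real_inner_smul_right, real_inner_smul_right, smul_eq_mul, smul_eq_mul, h3]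
  linarith

theorem conj_gradient [CompleteSpace H] {f : H → ℝ} (hf : Superlinear f) {x y : H}
    (h : conj f y = ⟪x, y⟫_ℝ - f x) (hd : DifferentiableAt ℝ (conj f) y) :
    gradient (conj f) y = x := by
  have h1 : HasFDerivAt (conj f) (InnerProductSpace.toDual ℝ H (gradient (conj f) y)) y :=
    hd.hasGradientAt.hasFDerivAt
  have h2 : HasFDerivAt (fun η : H => (InnerProductSpace.toDual ℝ H x) η)
      (InnerProductSpace.toDual ℝ H x) y := (InnerProductSpace.toDual ℝ H x).hasFDerivAt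
  have h3 := h1.sub h2
  have h4 : IsLocalMin (fun η : H => conj f η - (InnerProductSpace.toDual ℝ H x) η) y := by
    refine Filter.Eventually.of_forall ?_
    intro η
    show conj f y - (InnerProductSpace.toDual ℝ H x) y ≤ conj f η - (InnerProductSpace.toDual ℝ H x) η
    rw [InnerProductSpace.toDual_apply_apply, InnerProductSpace.toDual_apply_apply, h]
    have := le_conj hf x η
    linarith
  have h5 := h4.hasFDerivAt_eq_zero h3
  have h6 := sub_eq_zero.mp h5
  exact (InnerProductSpace.toDual ℝ H).injective h6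

theorem conj_le {f g : H → ℝ} (hf : Superlinear f) {e : ℝ} (h1 : ∀ x, f x ≤ g x)
    (h2 : ∀ x, g x ≤ f x + e) (y : H) :
    conj f y - e ≤ conj g y ∧ conj g y ≤ conj f y := by
  have hg : Superlinear g := by
    intro K
    obtain ⟨B, hB⟩ := hf K
    exact ⟨B, fun x => le_trans (hB x) (h1 x)⟩
  constructor
  · rw [sub_le_iff_le_add]
    refine csSup_le (Set.range_nonempty _) ?_
    rintro _ ⟨x, rfl⟩
    have h3 := le_conj hg x y
    have h4 := h2 x
    show ⟪x, y⟫_ℝ - f x ≤ conj g y + e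
    linarith
  · refine csSup_le (Set.range_nonempty _) ?_
    rintro _ ⟨x, rfl⟩
    have h3 := le_conj hf x y
    have h4 := h1 x
    show ⟪x, y⟫_ℝ - g x ≤ conj f y
    linarith

end Pool.Agent.Lib.MP_b414a3_an.LP
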