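import Pool.Agent.Lib.MP_b414a3_an.LP.Dom0

/-! MP_b414a3_an, board LG: conjugates on their domain. -/

set_option autoImplicit false

namespace Pool.Agent.Lib.MP_b414a3_an.LP

open scoped InnerProductSpace Topology Gradient

variable {H : Type*} [NormedAddCommGroup H] [InnerProductSpace ℝ H]

private theorem le_conj_dom {f : H → ℝ} {y : H} (hy : y ∈ dom f) (x : H) :
    ⟪x, y⟫_ℝ - f x ≤ conj f y := le_csSup hy ⟨x, rfl⟩

theorem dom_eq {f g : H → ℝ} {e : ℝ} (h1 : ∀ x, f x ≤ g x) (h2 : ∀ x, g x ≤ f x + e) :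
    dom g = dom f := by
  ext y
  constructor
  · rintro ⟨B, hB⟩
    refine ⟨B + e, ?_⟩
    rintro _ ⟨x, rfl⟩
    have h3 : ⟪x, y⟫_ℝ - g x ≤ B := hB ⟨x, rfl⟩
    have h4 := h2 x
    show ⟪x, y⟫_ℝ - f x ≤ B + e
    linarith
  · rintro ⟨B, hB⟩
    refine ⟨B, ?_⟩
    rintro _ ⟨x, rfl⟩
    have h3 : ⟪x, y⟫_ℝ - f x ≤ B := hB ⟨x, rfl⟩
    have h4 := h1 x
    show ⟪x, y⟫_ℝ - g x ≤ B
    linarith

theorem conj_le_dom {f g : H → ℝ} {e : ℝ} (h1 : ∀ x, f x ≤ g x) (h2 : ∀ x, g x ≤ f x + e) {y : H}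
    (hy : y ∈ dom f) : conj f y - e ≤ conj g y ∧ conj g y ≤ conj f y := by
  have hy' : y ∈ dom g := by rw [dom_eq h1 h2]; exact hy
  constructor
  · rw [sub_le_iff_le_add]
    refine csSup_le ⟨_, ⟨0, rfl⟩⟩ ?_
    rintro _ ⟨x, rfl⟩
    have h3 := le_conj_dom hy' x
    have h4 := h2 x
    show ⟪x, y⟫_ℝ - f x ≤ conj g y + e
    linarith
  · refine csSup_le ⟨_, ⟨0, rfl⟩⟩ ?_
    rintro _ ⟨x, rfl⟩
    have h3 := le_conj_dom hy x
    have h4 := h1 x
    show ⟪x, y⟫_ℝ - g x ≤ conj f y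
    linarith

private theorem comb {f : H → ℝ} {a b : ℝ} (hab : a + b = 1) (x y z : H) :
    ⟪x, a • y + b • z⟫_ℝ - f x = a * (⟪x, y⟫_ℝ - f x) + b * (⟪x, z⟫_ℝ - f x) := by
  have h3 : f x = a * f x + b * f x := by rw [← add_mul, hab, one_mul]
  rw [inner_add_right, real_inner_smul_right, real_inner_smul_right]
  linarith

theorem conj_convexOn (f : H → ℝ) : ConvexOn ℝ (dom f) (conj f) := by
  refine ⟨?_, fun y hy z hz a b ha hb hab => ?_⟩
  · rintro y ⟨B, hB⟩ z ⟨C, hC⟩ a b ha hb hab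
    refine ⟨a * B + b * C, ?_⟩
    rintro _ ⟨x, rfl⟩
    have h1 : ⟪x, y⟫_ℝ - f x ≤ B := hB ⟨x, rfl⟩
    have h2 : ⟪x, z⟫_ℝ - f x ≤ C := hC ⟨x, rfl⟩
    show ⟪x, a • y + b • z⟫_ℝ - f x ≤ a * B + b * C
    rw [comb hab]
    exact add_le_add (mul_le_mul_of_nonneg_left h1 ha) (mul_le_mul_of_nonneg_left h2 hb)
  · refine csSup_le ⟨_, ⟨0, rfl⟩⟩ ?_
    rintro _ ⟨x, rfl⟩
    show ⟪x, a • y + b • z⟫_ℝ - f x ≤ a • conj f y + b • conj f z
    rw [comb hab, smul_eq_mul, smul_eq_mul]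
    exact add_le_add (mul_le_mul_of_nonneg_left (le_conj_dom hy x) ha)
      (mul_le_mul_of_nonneg_left (le_conj_dom hz x) hb)

theorem conj_gradient_dom [CompleteSpace H] {f : H → ℝ} {x y : H} (hy : y ∈ interior (dom f))
    (h : conj f y = ⟪x, y⟫_ℝ - f x) (hd : DifferentiableAt ℝ (conj f) y) :
    gradient (conj f) y = x := by
  have hmin : IsLocalMin (fun w => conj f w - (InnerProductSpace.toDual ℝ H x) w) y := by
    filter_upwards [mem_interior_iff_mem_nhds.1 hy] with w hw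
    have h1 := le_conj_dom hw x
    rw [InnerProductSpace.toDual_apply_apply, InnerProductSpace.toDual_apply_apply]
    linarith
  have hF := hd.hasFDerivAt.sub (InnerProductSpace.toDual ℝ H x).hasFDerivAt (x := y)
  have h0 := hmin.hasFDerivAt_eq_zero hF
  have h1 : fderiv ℝ (conj f) y = InnerProductSpace.toDual ℝ H x := sub_eq_zero.1 h0
  have h2 : HasGradientAt (conj f) x y := by
    rw [hasGradientAt_iff_hasFDerivAt, ← h1]
    exact hd.hasFDerivAt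
  exact h2.gradient

end Pool.Agent.Lib.MP_b414a3_an.LP
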