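import Pool.Agent.Lib.MP_b414a3_an.LP.Min
import Pool.Agent.Lib.MP_b414a3_an.LP.InvLoc
import Pool.Agent.Lib.MP_b414a3_an.LP.Val
import Pool.Agent.Lib.MP_b414a3_an.LP.Baire
import Pool.Agent.Lib.MP_b414a3_an.LP.QuadDom
import Pool.Agent.Lib.MP_b414a3_an.LP.ValDom

/-! MP_b414a3_an, board LP: the conjugate of an analytic convex function with local quadratic growth is analytic
on the interior of its domain. -/

set_option autoImplicit false

namespace Pool.Agent.Lib.MP_b414a3_an.LP

open scoped InnerProductSpace Topology Gradient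

variable {H : Type*} [NormedAddCommGroup H] [InnerProductSpace ℝ H]

/-- the supremum in the conjugate is attained -/
theorem exists_grad_dom [CompleteSpace H] {f : H → ℝ} (hfa : AnalyticOnNhd ℝ f Set.univ)
    (hcv : ConvexOn ℝ Set.univ f) {y : H} (hy : y ∈ interior (dom f)) : ∃ x, gradient f x = y := by
  have hfc : Continuous f := by
    rw [continuous_iff_continuousAt]
    exact fun x => (hfa x (Set.mem_univ x)).continuousAt
  obtain ⟨r, B, hr, hB⟩ := interior_dom hy
  obtain ⟨x, hx⟩ : ∃ x, ∀ z, f x - ⟪x, y⟫_ℝ ≤ f z - ⟪z, y⟫_ℝ := by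
    refine exists_min_convex (h := fun z => f z - ⟪z, y⟫_ℝ) ?_ ?_ ?_
    · refine ⟨convex_univ, fun u _ v _ s t hs' ht' hst => ?_⟩
      have h1 := hcv.2 (Set.mem_univ u) (Set.mem_univ v) hs' ht' hst
      simp only [smul_eq_mul] at h1
      show f (s • u + t • v) - ⟪s • u + t • v, y⟫_ℝ ≤ s * (f u - ⟪u, y⟫_ℝ) + t * (f v - ⟪v, y⟫_ℝ)
      rw [inner_add_left, real_inner_smul_left, real_inner_smul_left]
      linarith
    · exact hfc.sub (continuous_id.inner continuous_const)
    · intro R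
      refine ⟨(R + B) / r, fun x hx => ?_⟩
      have h1 := hB x
      have h3 : f x - ⟪x, y⟫_ℝ ≤ R := hx
      rw [le_div_iff₀ hr]
      linarith
  refine ⟨x, ?_⟩
  have h1 := (hfa x (Set.mem_univ x)).differentiableAt.hasGradientAt
  have h2 : HasFDerivAt (fun z => f z - ⟪z, y⟫_ℝ)
      ((InnerProductSpace.toDual ℝ H) (gradient f x) - (InnerProductSpace.toDual ℝ H) y) x := by
    refine h1.hasFDerivAt.sub ?_
    have h3 := ((InnerProductSpace.toDual ℝ H) y).hasFDerivAt (x := x)
    refine h3.congr_of_eventuallyEq (Filter.Eventually.of_forall fun z => ?_)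
    simp [real_inner_comm]
  have h3 : IsLocalMin (fun z => f z - ⟪z, y⟫_ℝ) x := Filter.Eventually.of_forall hx
  have h4 := h3.hasFDerivAt_eq_zero h2
  rw [sub_eq_zero] at h4
  exact (InnerProductSpace.toDual ℝ H).injective h4

theorem analytic_conj_dom [CompleteSpace H] {f : H → ℝ} (hfa : AnalyticOnNhd ℝ f Set.univ)
    (hcv : ConvexOn ℝ Set.univ f) (hq : ∀ x, Quad f x) :
    AnalyticOnNhd ℝ (conj f) (interior (dom f)) := by
  intro y hy
  obtain ⟨x, hx⟩ := exists_grad_dom hfa hcv hy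
  obtain ⟨g, hg1, hg2, hg3⟩ := local_inverse_loc (hfa x (Set.mem_univ x)) hcv (hq x)
  rw [hx] at hg1 hg2 hg3
  have h2 : AnalyticAt ℝ (fun y' => ⟪g y', y'⟫_ℝ - f (g y')) y := by
    have h3 : AnalyticAt ℝ f (g y) := hfa _ (Set.mem_univ _)
    have h4 : AnalyticAt ℝ (fun y' => ⟪g y', y'⟫_ℝ) y := by
      let B : H →L[ℝ] H →L[ℝ] ℝ := innerSL ℝ
      exact (B.analyticAt_bilinear (g y, y)).comp₂ hg1 analyticAt_id
    exact h4.sub (h3.comp hg1)
  refine h2.congr ?_
  filter_upwards [hg3] with y' h3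
  exact (conj_value hcv h3.1.differentiableAt h3.2).1.symm

/-- the gradients are inverse to each other -/
theorem gradients_dom [CompleteSpace H] {f : H → ℝ} (hfa : AnalyticOnNhd ℝ f Set.univ)
    (hcv : ConvexOn ℝ Set.univ f) (hq : ∀ x, Quad f x) :
    (∀ x, gradient f x ∈ interior (dom f) ∧ gradient (conj f) (gradient f x) = x) ∧
      ∀ y ∈ interior (dom f), gradient f (gradient (conj f) y) = y := by
  have h1 : ∀ x, gradient f x ∈ interior (dom f) ∧ gradient (conj f) (gradient f x) = x := by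
    intro x
    have h0 := quad_mem_interior hcv (hq x)
    have h2 := (conj_value hcv (hfa x (Set.mem_univ x)).differentiableAt rfl).1
    exact ⟨h0, conj_gradient_dom h0 h2 (analytic_conj_dom hfa hcv hq _ h0).differentiableAt⟩
  refine ⟨h1, fun y hy => ?_⟩
  obtain ⟨x, rfl⟩ := exists_grad_dom hfa hcv hy
  rw [(h1 x).2]

end Pool.Agent.Lib.MP_b414a3_an.LP
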