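import Mathlib

/-! MP_b414a3_an, board LP: convex functions on a Hilbert space and their conjugates. -/

set_option autoImplicit false

namespace Pool.Agent.Lib.MP_b414a3_an.LP

open scoped InnerProductSpace Topology Gradient

variable {H : Type*} [NormedAddCommGroup H] [InnerProductSpace ℝ H]

/-- The conjugate (Legendre-Fenchel transform); `H` is identified with its dual by the inner product. -/
noncomputable def conj (f : H → ℝ) (y : H) : ℝ := sSup (Set.range fun x : H => ⟪x, y⟫_ℝ - f x)

/-- `f` grows faster than every multiple of the norm. -/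
def Superlinear (f : H → ℝ) : Prop := ∀ K : ℝ, ∃ B : ℝ, ∀ x, K * ‖x‖ - B ≤ f x

/-- the function `(1 + ‖x‖ ^ 2) ^ (1 / 2)` -/
noncomputable def phi (x : H) : ℝ := Real.sqrt (1 + ‖x‖ ^ 2)

/-- `f` is above its tangent plane at `x` by a multiple of the square of the distance, locally. -/
def Quad (f : H → ℝ) (x : H) [CompleteSpace H] : Prop :=
  ∃ c : ℝ, 0 < c ∧ ∀ᶠ z in 𝓝 x, f x + ⟪gradient f x, z - x⟫_ℝ + c * ‖z - x‖ ^ 2 ≤ f z

end Pool.Agent.Lib.MP_b414a3_an.LP
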