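import Pool.Agent.Lib.MP_b414a3_an.LP.Defs

/-! MP_b414a3_an, board LP: the domain of the conjugate. -/

set_option autoImplicit false

namespace Pool.Agent.Lib.MP_b414a3_an.LP

open scoped InnerProductSpace Topology Gradient

variable {H : Type*} [NormedAddCommGroup H] [InnerProductSpace ℝ H]

/-- the set of the `y` at which the conjugate is finite -/
def dom (f : H → ℝ) : Set H := {y | BddAbove (Set.range fun x : H => ⟪x, y⟫_ℝ - f x)}

end Pool.Agent.Lib.MP_b414a3_an.LP
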