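import Pool.Agent.Lib.MP_b414a3_an.LP.Defs

set_option autoImplicit false

namespace Pool.Agent.Lib.MP_b414a3_an.LP

open scoped InnerProductSpace Topology Gradient

variable {H : Type*} [NormedAddCommGroup H] [InnerProductSpace ℝ H]

private theorem phi_pos1 (x : H) : 0 < 1 + ‖x‖ ^ 2 := by positivity

private theorem phi_sq (x : H) : phi x ^ 2 = 1 + ‖x‖ ^ 2 := by
  unfold phi
  exact Real.sq_sqrt (phi_pos1 x).le

theorem one_le_phi (x : H) : 1 ≤ phi x := by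
  unfold phi
  rw [Real.one_le_sqrt]
  nlinarith [sq_nonneg ‖x‖]

theorem norm_le_phi (x : H) : ‖x‖ ≤ phi x := by
  unfold phi
  have h1 : |‖x‖| ≤ Real.sqrt (1 + ‖x‖ ^ 2) := Real.abs_le_sqrt (by linarith)
  exact (le_abs_self _).trans h1

theorem phi_le (x : H) : phi x ≤ 1 + ‖x‖ := by
  unfold phi
  have := norm_nonneg x
  rw [Real.sqrt_le_iff]
  constructor
  · linarith
  · nlinarith

private theorem phi_gram (x z : H) : ‖z - x‖ ^ 2 + (1 + ⟪x, z⟫_ℝ) ^ 2 ≤ (phi z * phi x) ^ 2 := by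
  rw [mul_pow, phi_sq, phi_sq, norm_sub_sq_real, real_inner_comm x z]
  have h1 : ⟪x, z⟫_ℝ ^ 2 ≤ ‖x‖ ^ 2 * ‖z‖ ^ 2 := by
    rw [← mul_pow, sq_le_sq, abs_of_nonneg (mul_nonneg (norm_nonneg x) (norm_nonneg z))]
    exact abs_real_inner_le_norm x z
  nlinarith

private theorem phi_abs (x z : H) : |1 + ⟪x, z⟫_ℝ| ≤ phi z * phi x := by
  have h1 := phi_gram x z
  have h2 : 0 ≤ phi z * phi x :=
    mul_nonneg (zero_le_one.trans (one_le_phi z)) (zero_le_one.trans (one_le_phi x))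
  refine abs_le_of_sq_le_sq ?_ h2
  have := sq_nonneg ‖z - x‖
  linarith

theorem phi_convex : ConvexOn ℝ Set.univ (phi : H → ℝ) := by
  refine ⟨convex_univ, fun x _ y _ s t hs ht hst => ?_⟩
  have hx := one_le_phi x
  have hy := one_le_phi y
  have h0 : 0 ≤ s • phi x + t • phi y := by
    rw [smul_eq_mul, smul_eq_mul]
    positivity
  have h1 : phi (s • x + t • y) = Real.sqrt (1 + ‖s • x + t • y‖ ^ 2) := rfl
  rw [h1, Real.sqrt_le_iff]
  refine ⟨h0, ?_⟩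
  have h2 := (le_abs_self _).trans (phi_abs x y)
  have h3 := phi_sq x
  have h4 := phi_sq y
  rw [norm_add_sq_real, norm_smul, norm_smul, real_inner_smul_left, real_inner_smul_right,
    mul_pow, mul_pow, Real.norm_of_nonneg hs, Real.norm_of_nonneg ht, smul_eq_mul, smul_eq_mul]
  have h5 : s * t * (1 + ⟪x, y⟫_ℝ) ≤ s * t * (phi y * phi x) :=
    mul_le_mul_of_nonneg_left h2 (mul_nonneg hs ht)
  have h6 : (s * phi x + t * phi y) ^ 2 =
      s ^ 2 * (1 + ‖x‖ ^ 2) + t ^ 2 * (1 + ‖y‖ ^ 2) + 2 * (s * t * (phi y * phi x)) := by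
    rw [← h3, ← h4]
    ring
  rw [h6]
  have h7 : (1 : ℝ) = (s + t) ^ 2 := by rw [hst]; norm_num
  nlinarith

theorem phi_analytic : AnalyticOnNhd ℝ (phi : H → ℝ) Set.univ := by
  intro x _
  have h2 : AnalyticAt ℝ (fun z : H => ‖z‖ ^ 2) x := by
    have h3 : AnalyticAt ℝ (fun z : H => ⟪z, z⟫_ℝ) x := by
      have h4 : AnalyticAt ℝ (fun z : H => (innerSL ℝ z) z) x :=
        AnalyticAt.comp₂ (h := fun p : H × H => (innerSL ℝ p.1) p.2)
          ((innerSL ℝ : H →L[ℝ] H →L[ℝ] ℝ).analyticAt_bilinear (x, x)) analyticAt_id analyticAt_id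
      exact h4
    simpa [real_inner_self_eq_norm_sq] using h3
  have h5 : AnalyticAt ℝ (fun z : H => 1 + ‖z‖ ^ 2) x := analyticAt_const.add h2
  have h6 := phi_pos1 x
  have h7 : AnalyticAt ℝ Real.sqrt (1 + ‖x‖ ^ 2) := by
    have h8 : AnalyticAt ℝ (fun t : ℝ => Real.exp (Real.log t * (1 / 2 : ℝ))) (1 + ‖x‖ ^ 2) := by
      exact ((analyticAt_log h6).mul analyticAt_const).rexp
    refine h8.congr ?_
    filter_upwards [lt_mem_nhds h6] with t ht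
    rw [Real.sqrt_eq_rpow, Real.rpow_def_of_pos ht]
  exact AnalyticAt.comp_of_eq h7 h5 rfl

private theorem phi_continuous : Continuous (phi : H → ℝ) := by
  unfold phi
  fun_prop

theorem phi_quad (x : H) : ∃ c : ℝ, 0 < c ∧
    ∀ᶠ z in 𝓝 x, phi x + (phi x)⁻¹ * ⟪x, z - x⟫_ℝ + c * ‖z - x‖ ^ 2 ≤ phi z := by
  have hx := one_le_phi x
  have hx0 : 0 < phi x := zero_lt_one.trans_le hx
  refine ⟨(2 * (phi x * (phi x + 1)) * phi x)⁻¹, by positivity, ?_⟩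
  have h1 : ∀ᶠ z in 𝓝 x, phi z < phi x + 1 :=
    phi_continuous.continuousAt.eventually_lt continuousAt_const (by linarith)
  filter_upwards [h1] with z hz
  have hz0 : 0 < phi z := zero_lt_one.trans_le (one_le_phi z)
  have h2 := phi_gram x z
  have h3 := abs_le.1 (phi_abs x z)
  have h4 : phi z * phi x ≤ phi x * (phi x + 1) := by
    rw [mul_comm]
    exact mul_le_mul_of_nonneg_left hz.le hx0.le
  have h5 : ‖z - x‖ ^ 2 ≤ (phi z * phi x - (1 + ⟪x, z⟫_ℝ)) * (2 * (phi x * (phi x + 1))) := by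
    have h6 : (phi z * phi x - (1 + ⟪x, z⟫_ℝ)) * (phi z * phi x + (1 + ⟪x, z⟫_ℝ)) ≤
        (phi z * phi x - (1 + ⟪x, z⟫_ℝ)) * (2 * (phi x * (phi x + 1))) := by
      apply mul_le_mul_of_nonneg_left
      · linarith [h3.2]
      · linarith [h3.2]
    nlinarith
  have h7 : (2 * (phi x * (phi x + 1)) * phi x)⁻¹ * ‖z - x‖ ^ 2 ≤
      (phi x)⁻¹ * (phi z * phi x - (1 + ⟪x, z⟫_ℝ)) := by
    have hK : 0 < 2 * (phi x * (phi x + 1)) := by positivity
    rw [mul_inv, mul_comm (2 * (phi x * (phi x + 1)))⁻¹, mul_assoc]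
    apply mul_le_mul_of_nonneg_left _ (inv_nonneg.2 hx0.le)
    rw [inv_mul_le_iff₀ hK]
    linarith
  have h8 : phi x + (phi x)⁻¹ * ⟪x, z - x⟫_ℝ = (phi x)⁻¹ * (1 + ⟪x, z⟫_ℝ) := by
    rw [inner_sub_right, real_inner_self_eq_norm_sq]
    have h9 := phi_sq x
    have h10 : phi x = (phi x)⁻¹ * phi x ^ 2 := by
      rw [pow_two, ← mul_assoc, inv_mul_cancel₀ hx0.ne', one_mul]
    calc phi x + (phi x)⁻¹ * (⟪x, z⟫_ℝ - ‖x‖ ^ 2)
        = (phi x)⁻¹ * phi x ^ 2 + (phi x)⁻¹ * (⟪x, z⟫_ℝ - ‖x‖ ^ 2) := by rw [← h10]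
      _ = (phi x)⁻¹ * (1 + ⟪x, z⟫_ℝ) := by rw [h9]; ring
  have h11 : (phi x)⁻¹ * (phi z * phi x - (1 + ⟪x, z⟫_ℝ)) = phi z - (phi x)⁻¹ * (1 + ⟪x, z⟫_ℝ) := by
    field_simp
  rw [h8]
  linarith

theorem phi_gradient [CompleteSpace H] (x : H) : HasGradientAt phi ((phi x)⁻¹ • x) x := by
  rw [hasGradientAt_iff_hasFDerivAt]
  have h1 := ((hasStrictFDerivAt_norm_sq x).hasFDerivAt.const_add 1).sqrt (phi_pos1 x).ne'
  have h2 : HasFDerivAt (phi : H → ℝ) ((1 / (2 * Real.sqrt (1 + ‖x‖ ^ 2))) • (2 • innerSL ℝ x)) x := h1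
  have h3 : Real.sqrt (1 + ‖x‖ ^ 2) = phi x := rfl
  rw [h3] at h2
  have hx0 : phi x ≠ 0 := (zero_lt_one.trans_le (one_le_phi x)).ne'
  have e : (1 / (2 * phi x)) • (2 • innerSL ℝ x) = InnerProductSpace.toDual ℝ H ((phi x)⁻¹ • x) := by
    refine ContinuousLinearMap.ext fun v => ?_
    have e1 : ((1 / (2 * phi x)) • (2 • innerSL ℝ x)) v = 1 / (2 * phi x) * (2 * ⟪x, v⟫_ℝ) := by
      simp [two_smul]
      ring
    rw [e1, InnerProductSpace.toDual_apply_apply, real_inner_smul_left]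
    field_simp
  rw [e] at h2
  exact h2

end Pool.Agent.Lib.MP_b414a3_an.LP
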