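import Pool.Agent.Lib.MP_b414a3_an.LP.Defs
import Pool.Agent.Lib.MP_b414a3_an.LP.Phi
set_option autoImplicit false
namespace Pool.Agent.Lib.MP_b414a3_an.LP
open scoped InnerProductSpace Topology Gradient
variable {H : Type*} [NormedAddCommGroup H] [InnerProductSpace ℝ H]

private theorem first_order [CompleteSpace H] {g : H → ℝ} (hcv : ConvexOn ℝ Set.univ g) {v x : H}
    (hv : HasGradientAt g v x) (z : H) : g x + ⟪v, z - x⟫_ℝ ≤ g z := by
  have h1 : ConvexOn ℝ Set.univ (fun t : ℝ => g (AffineMap.lineMap x z t)) := by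
    have := hcv.comp_affineMap (AffineMap.lineMap x z : ℝ →ᵃ[ℝ] H)
    simpa [Function.comp_def] using this
  have h2 : HasDerivAt (fun t : ℝ => g (AffineMap.lineMap x z t)) ⟪v, z - x⟫_ℝ 0 := by
    have hline : HasDerivAt (fun t : ℝ => (AffineMap.lineMap x z t : H)) (z - x) 0 :=
      AffineMap.hasDerivAt_lineMap
    have hg : HasFDerivAt g (InnerProductSpace.toDual ℝ H v) (AffineMap.lineMap x z (0 : ℝ)) := by
      rw [AffineMap.lineMap_apply_zero]
      exact hv.hasFDerivAt
    have := hg.comp_hasDerivAt (0 : ℝ) hline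
    simpa [Function.comp_def] using this
  have h3 := h1.le_slope_of_hasDerivAt (Set.mem_univ (0 : ℝ)) (Set.mem_univ (1 : ℝ)) one_pos h2
  rw [slope_def_field] at h3
  simp only [AffineMap.lineMap_apply_zero, AffineMap.lineMap_apply_one, sub_zero, div_one] at h3
  linarith

theorem perturb [CompleteSpace H] {g : H → ℝ} (hg : AnalyticOnNhd ℝ g Set.univ)
    (hcv : ConvexOn ℝ Set.univ g) {a b e : ℝ} (ha : 0 < a) (hab : ∀ x, a * phi x - b ≤ g x)
    (he : 0 < e) (he1 : e < 1) :
    ∃ G : H → ℝ, AnalyticOnNhd ℝ G Set.univ ∧ ConvexOn ℝ Set.univ G ∧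
      (∀ x, g x ≤ G x ∧ G x ≤ g x + e) ∧ ∀ x, Quad G x := by
  set E : H → ℝ := fun x => Real.exp (a * phi x - b - g x) with hE
  have hE0 : ∀ x, 0 < E x := fun x => Real.exp_pos _
  have hE1 : ∀ x, E x ≤ 1 := fun x => Real.exp_le_one_iff.mpr (by linarith [hab x])
  have hkey : ∀ x z, g x + e * E x + (1 - e * E x) * (g z - g x) +
      e * a * E x * (phi z - phi x) ≤ g z + e * E z := by
    intro x z
    have h1 : E x * (1 + ((a * phi z - b - g z) - (a * phi x - b - g x))) ≤ E z := by
      have h2 := Real.add_one_le_exp ((a * phi z - b - g z) - (a * phi x - b - g x))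
      have h3 : E z = E x * Real.exp ((a * phi z - b - g z) - (a * phi x - b - g x)) := by
        simp only [hE]
        rw [← Real.exp_add]
        congr 1
        ring
      rw [h3]
      refine mul_le_mul_of_nonneg_left ?_ (hE0 x).le
      linarith
    have h4 := mul_le_mul_of_nonneg_left h1 he.le
    nlinarith [h4]
  refine ⟨fun x => g x + e * E x, ?_, ?_, ?_, ?_⟩
  · intro x hx
    have h1 : AnalyticAt ℝ (fun x : H => a * phi x - b - g x) x :=
      ((analyticAt_const.mul (phi_analytic x hx)).sub analyticAt_const).sub (hg x hx)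
    exact (hg x hx).add (analyticAt_const.mul h1.rexp)
  · refine ⟨convex_univ, ?_⟩
    intro x _ z _ s t hs ht hst
    have h1 := hkey (s • x + t • z) x
    have h2 := hkey (s • x + t • z) z
    have h3 := hcv.2 (Set.mem_univ x) (Set.mem_univ z) hs ht hst
    have h4 := (phi_convex (H := H)).2 (Set.mem_univ x) (Set.mem_univ z) hs ht hst
    simp only [smul_eq_mul] at h3 h4 ⊢
    set m := s • x + t • z with hm
    have h5 : 0 ≤ 1 - e * E m := by
      have := mul_le_mul_of_nonneg_left (hE1 m) he.le
      linarith
    have h6 : 0 ≤ e * a * E m := by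
      have := hE0 m
      positivity
    have h7 := mul_le_mul_of_nonneg_left h1 hs
    have h8 := mul_le_mul_of_nonneg_left h2 ht
    have h9 : 0 ≤ (1 - e * E m) * (s * g x + t * g z - g m) :=
      mul_nonneg h5 (by linarith)
    have h10 : 0 ≤ e * a * E m * (s * phi x + t * phi z - phi m) :=
      mul_nonneg h6 (by linarith)
    have ht' : t = 1 - s := by linarith
    subst ht'
    nlinarith [h7, h8, h9, h10]
  · intro x
    have h1 := mul_pos he (hE0 x)
    have h2 := mul_le_mul_of_nonneg_left (hE1 x) he.le
    constructor <;> simp only <;> linarith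
  · intro x
    have hgx : HasGradientAt g (gradient g x) x :=
      (hg x (Set.mem_univ x)).differentiableAt.hasGradientAt
    have hφx := phi_gradient x
    have hw : HasGradientAt (fun x => g x + e * E x)
        ((1 - e * E x) • gradient g x + (e * a * E x * (phi x)⁻¹) • x) x := by
      rw [hasGradientAt_iff_hasFDerivAt]
      have h1 := hgx.hasFDerivAt
      have h2 := hφx.hasFDerivAt
      have h3 := (((h2.const_mul a).sub_const b).sub h1).exp
      have h4 := h1.add (h3.const_mul e)
      refine h4.congr_fderiv ?_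
      ext u
      simp [hE]
      ring
    obtain ⟨c, hc, hq⟩ := phi_quad x
    refine ⟨e * a * E x * c, by have := hE0 x; positivity, ?_⟩
    filter_upwards [hq] with z hz
    rw [hw.gradient]
    rw [inner_add_left, inner_smul_left, inner_smul_left]
    simp only [conj_trivial]
    have h1 := first_order hcv hgx z
    have h2 := hkey x z
    have h5 : 0 ≤ 1 - e * E x := by
      have := mul_le_mul_of_nonneg_left (hE1 x) he.le
      linarith
    have h6 : 0 ≤ e * a * E x := by
      have := hE0 x
      positivity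
    have h7 := mul_le_mul_of_nonneg_left h1 h5
    have h8 := mul_le_mul_of_nonneg_left hz h6
    nlinarith [h2, h7, h8]

end Pool.Agent.Lib.MP_b414a3_an.LP
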