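import Pool.Agent.Lib.MP_b414a3_an.LP.Dom0
import Pool.Agent.Lib.MP_b414a3_an.LP.Phi
import Pool.Agent.Lib.MP_b414a3_an.LP.Pert

set_option autoImplicit false

namespace Pool.Agent.Lib.MP_b414a3_an.LP

open scoped InnerProductSpace Topology Gradient

variable {H : Type*} [NormedAddCommGroup H] [InnerProductSpace ℝ H]

private theorem lin_analytic (y₀ : H) : AnalyticOnNhd ℝ (fun x : H => ⟪x, y₀⟫_ℝ) Set.univ := by
  intro x _
  have h1 : AnalyticAt ℝ (fun z : H => innerSL ℝ y₀ z) x := (innerSL ℝ y₀).analyticAt x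
  have e : (fun x : H => ⟪x, y₀⟫_ℝ) = fun z : H => innerSL ℝ y₀ z := by
    funext z
    rw [innerSL_apply_apply, real_inner_comm]
  rw [e]
  exact h1

private theorem lin_convex (y₀ : H) : ConvexOn ℝ Set.univ (fun x : H => ⟪x, y₀⟫_ℝ) := by
  refine ⟨convex_univ, fun x _ y _ s t _ _ _ => ?_⟩
  show ⟪s • x + t • y, y₀⟫_ℝ ≤ s • ⟪x, y₀⟫_ℝ + t • ⟪y, y₀⟫_ℝ
  rw [inner_add_left, real_inner_smul_left, real_inner_smul_left, smul_eq_mul, smul_eq_mul]

private theorem lin_concave (y₀ : H) : ConvexOn ℝ Set.univ (fun x : H => -⟪x, y₀⟫_ℝ) := by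
  refine ⟨convex_univ, fun x _ y _ s t _ _ _ => ?_⟩
  show -⟪s • x + t • y, y₀⟫_ℝ ≤ s • (-⟪x, y₀⟫_ℝ) + t • (-⟪y, y₀⟫_ℝ)
  rw [inner_add_left, real_inner_smul_left, real_inner_smul_left, smul_eq_mul, smul_eq_mul]
  linarith

private theorem lin_gradient [CompleteSpace H] (y₀ x : H) :
    HasGradientAt (fun x : H => ⟪x, y₀⟫_ℝ) y₀ x := by
  rw [hasGradientAt_iff_hasFDerivAt]
  have h1 : HasFDerivAt (fun z : H => InnerProductSpace.toDual ℝ H y₀ z)
      (InnerProductSpace.toDual ℝ H y₀) x := (InnerProductSpace.toDual ℝ H y₀).hasFDerivAt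
  have e : (fun x : H => ⟪x, y₀⟫_ℝ) = fun z : H => InnerProductSpace.toDual ℝ H y₀ z := by
    funext z
    rw [InnerProductSpace.toDual_apply_apply, real_inner_comm]
  rw [e]
  exact h1

theorem perturb_lin [CompleteSpace H] {g : H → ℝ}
    (hg : AnalyticOnNhd ℝ g Set.univ) (hcv : ConvexOn ℝ Set.univ g) {y₀ : H} {a b e : ℝ} (ha : 0 < a)
    (hab : ∀ x, ⟪x, y₀⟫_ℝ + a * ‖x‖ - b ≤ g x) (he : 0 < e) (he1 : e < 1) :
    ∃ G : H → ℝ, AnalyticOnNhd ℝ G Set.univ ∧ ConvexOn ℝ Set.univ G ∧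
      (∀ x, g x ≤ G x ∧ G x ≤ g x + e) ∧ ∀ x, Quad G x := by
  have h1 : AnalyticOnNhd ℝ (fun x => g x + -⟪x, y₀⟫_ℝ) Set.univ := by
    intro x hx
    exact (hg x hx).add (lin_analytic y₀ x hx).neg
  have h2 : ConvexOn ℝ Set.univ (fun x => g x + -⟪x, y₀⟫_ℝ) := hcv.add (lin_concave y₀)
  have h3 : ∀ x, a * phi x - (a + b) ≤ g x + -⟪x, y₀⟫_ℝ := by
    intro x
    have h4 := hab x
    have h5 := mul_le_mul_of_nonneg_left (phi_le x) ha.le
    linarith
  obtain ⟨G, hG, hGc, hGe, hGq⟩ := perturb h1 h2 ha h3 he he1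
  refine ⟨fun x => G x + ⟪x, y₀⟫_ℝ, ?_, hGc.add (lin_convex y₀), ?_, ?_⟩
  · intro x hx
    exact (hG x hx).add (lin_analytic y₀ x hx)
  · intro x
    have h4 := hGe x
    constructor
    · show g x ≤ G x + ⟪x, y₀⟫_ℝ
      linarith [h4.1]
    · show G x + ⟪x, y₀⟫_ℝ ≤ g x + e
      linarith [h4.2]
  · intro x
    obtain ⟨c, hc, hq⟩ := hGq x
    refine ⟨c, hc, ?_⟩
    have h4 : gradient (fun x => G x + ⟪x, y₀⟫_ℝ) x = gradient G x + y₀ := by
      have h5 : HasGradientAt G (gradient G x) x :=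
        (hG x (Set.mem_univ x)).differentiableAt.hasGradientAt
      have h6 := lin_gradient y₀ x
      rw [hasGradientAt_iff_hasFDerivAt] at h5 h6
      have h7 := h5.add h6
      rw [← map_add] at h7
      exact HasGradientAt.gradient (hasGradientAt_iff_hasFDerivAt.2 h7)
    filter_upwards [hq] with z hz
    rw [h4, inner_add_left, inner_sub_right y₀, real_inner_comm z y₀, real_inner_comm x y₀]
    linarith

end Pool.Agent.Lib.MP_b414a3_an.LP
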