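import Pool.Agent.Lib.MP_b414a3_an.LP.ConjG
import Pool.Agent.Lib.MP_b414a3_an.LP.PertLin
import Pool.Agent.Lib.MP_b414a3_an.GA.Main

/-! MP_b414a3_an, board LP: a convex function and its conjugate. -/

set_option autoImplicit false

namespace Pool.Agent.Lib.MP_b414a3_an.LP

open scoped InnerProductSpace Topology Gradient

variable {H : Type*} [NormedAddCommGroup H] [InnerProductSpace ℝ H]

theorem finalG [CompleteSpace H] [TopologicalSpace.SeparableSpace H] {f : H → ℝ}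
    (hf : ConvexOn ℝ Set.univ f) (hc : Continuous f) (hs : (interior (dom f)).Nonempty) {e : ℝ}
    (he : 0 < e) :
    ∃ g : H → ℝ, AnalyticOnNhd ℝ g Set.univ ∧ ConvexOn ℝ Set.univ g ∧
      (∀ x, f x ≤ g x ∧ g x ≤ f x + e) ∧ dom g = dom f ∧
      AnalyticOnNhd ℝ (conj g) (interior (dom f)) ∧ ConvexOn ℝ (dom f) (conj g) ∧
      (∀ y ∈ dom f, conj f y - e ≤ conj g y ∧ conj g y ≤ conj f y) ∧
      (∀ x, gradient g x ∈ interior (dom f) ∧ gradient (conj g) (gradient g x) = x) ∧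
      ∀ y ∈ interior (dom f), gradient g (gradient (conj g) y) = y := by
  obtain ⟨d, hd, hd1, hd2⟩ : ∃ d : ℝ, 0 < d ∧ d ≤ e / 2 ∧ d < 1 :=
    ⟨min (e / 2) (1 / 2), lt_min (by positivity) (by norm_num), min_le_left _ _,
      (min_le_right _ _).trans_lt (by norm_num)⟩
  obtain ⟨y₀, hy₀⟩ := hs
  obtain ⟨r, B, hr, hB⟩ := interior_dom hy₀
  obtain ⟨g₀, hg1, hg2, hg3⟩ := Pool.Agent.Lib.MP_b414a3_an.GA.strong isOpen_univ hf hc.continuousOn
    (innerSL ℝ y₀ : H →L[ℝ] ℝ) (a := r) (b := B) hr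
    (fun x _ => by
      have h1 := hB x
      rw [real_inner_comm] at h1
      exact h1)
    (η := fun _ => d) continuous_const (fun _ => hd)
  obtain ⟨g, hg4, hg5, hg6, hg7⟩ := perturb_lin hg1 hg2 (y₀ := y₀) (a := r) (b := B) hr
    (fun x => (hB x).trans (hg3 x (Set.mem_univ x)).1.le) hd hd2
  have h1 : ∀ x, f x ≤ g x := fun x => (hg3 x (Set.mem_univ x)).1.le.trans (hg6 x).1
  have h2 : ∀ x, g x ≤ f x + e := fun x => by
    have h3 := (hg3 x (Set.mem_univ x)).2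
    have h4 := (hg6 x).2
    linarith
  have hD := dom_eq h1 h2
  obtain ⟨h5, h6⟩ := gradients_dom hg4 hg5 hg7
  have h7 := analytic_conj_dom hg4 hg5 hg7
  have h8 := conj_convexOn g
  rw [hD] at h5 h6 h7 h8
  exact ⟨g, hg4, hg5, fun x => ⟨h1 x, h2 x⟩, hD, h7, h8, fun y hy => conj_le_dom h1 h2 hy, h5, h6⟩

end Pool.Agent.Lib.MP_b414a3_an.LP
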