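import Pool.Agent.Lib.MP_b414a3_an.LP.Defs

/-! MP_b414a3_an, board LP: a continuous convex coercive function attains its minimum. -/

set_option autoImplicit false

namespace Pool.Agent.Lib.MP_b414a3_an.LP

open scoped InnerProductSpace Topology Gradient

variable {H : Type*} [NormedAddCommGroup H] [InnerProductSpace ℝ H]

private theorem inter_nonempty [CompleteSpace H] (C : ℕ → Set H) (hne : ∀ n, (C n).Nonempty)
    (hcl : ∀ n, IsClosed (C n)) (hcv : ∀ n, Convex ℝ (C n)) (hanti : Antitone C) (B : ℝ)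
    (hB : ∀ x ∈ C 0, ‖x‖ ≤ B) : ∃ x, ∀ n, x ∈ C n := by
  choose s hs using fun n =>
    exists_norm_eq_iInf_of_complete_convex (hne n) (hcl n).isComplete (hcv n) (0 : H)
  have hmin : ∀ n, ∀ w ∈ C n, ‖s n‖ ≤ ‖w‖ := by
    intro n w hw
    have h1 := (hs n).2
    rw [zero_sub, norm_neg] at h1
    rw [h1]
    have h2 := ciInf_le (f := fun w : C n => ‖(0 : H) - w‖)
      ⟨0, by rintro _ ⟨w, rfl⟩; exact norm_nonneg _⟩ ⟨w, hw⟩
    simpa using h2
  have hmem : ∀ n m, n ≤ m → s m ∈ C n := fun n m hnm => hanti hnm (hs m).1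
  have hmono : Monotone (fun n => ‖s n‖) := fun n m hnm => hmin n (s m) (hmem n m hnm)
  have hbdd : BddAbove (Set.range (fun n => ‖s n‖)) :=
    ⟨B, by rintro _ ⟨n, rfl⟩; exact hB _ (hmem 0 n (Nat.zero_le n))⟩
  have hconv : Filter.Tendsto (fun n => ‖s n‖) Filter.atTop (𝓝 (⨆ n, ‖s n‖)) :=
    tendsto_atTop_ciSup hmono hbdd
  have hle : ∀ m, ‖s m‖ ≤ ⨆ n, ‖s n‖ := fun m => le_ciSup hbdd m
  have hkey : ∀ n m, n ≤ m → ‖s n - s m‖ ^ 2 ≤ 2 * (‖s m‖ ^ 2 - ‖s n‖ ^ 2) := by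
    intro n m hnm
    have hmid : (1 / 2 : ℝ) • s n + (1 / 2 : ℝ) • s m ∈ C n :=
      (hcv n) (hs n).1 (hmem n m hnm) (by norm_num) (by norm_num) (by norm_num)
    have h1 := hmin n _ hmid
    rw [← smul_add, norm_smul] at h1
    have h2 : 2 * ‖s n‖ ≤ ‖s n + s m‖ := by
      have e : ‖(1 / 2 : ℝ)‖ = 1 / 2 := by norm_num
      rw [e] at h1
      linarith
    have h3 := parallelogram_law_with_norm ℝ (s n) (s m)
    have h4 : (2 * ‖s n‖) ^ 2 ≤ ‖s n + s m‖ ^ 2 := by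
      have := norm_nonneg (s n)
      gcongr
    nlinarith
  have hcau : CauchySeq s := by
    refine cauchySeq_of_le_tendsto_0' (fun n => Real.sqrt (2 * ((⨆ n, ‖s n‖) ^ 2 - ‖s n‖ ^ 2)))
      (fun n m hnm => ?_) ?_
    · rw [dist_eq_norm]
      apply Real.le_sqrt_of_sq_le
      have h1 := hkey n m hnm
      have h2 : ‖s m‖ ^ 2 ≤ (⨆ n, ‖s n‖) ^ 2 := by
        have h3 := hle m
        have := norm_nonneg (s m)
        gcongr
      linarith
    · have h1 : Filter.Tendsto (fun n => 2 * ((⨆ n, ‖s n‖) ^ 2 - ‖s n‖ ^ 2)) Filter.atTop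
          (𝓝 (2 * ((⨆ n, ‖s n‖) ^ 2 - (⨆ n, ‖s n‖) ^ 2))) :=
        ((hconv.pow 2).const_sub _).const_mul 2
      rw [sub_self, mul_zero] at h1
      have h2 := (Real.continuous_sqrt.tendsto 0).comp h1
      rw [Real.sqrt_zero] at h2
      exact h2
  obtain ⟨x, hx⟩ := cauchySeq_tendsto_of_complete hcau
  refine ⟨x, fun n => (hcl n).mem_of_tendsto hx ?_⟩
  exact Filter.eventually_atTop.2 ⟨n, fun m hm => hmem n m hm⟩

private theorem exists_le_all [CompleteSpace H] {h : H → ℝ} (hc : ConvexOn ℝ Set.univ h)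
    (hcont : Continuous h) (hco : ∀ R : ℝ, ∃ B : ℝ, ∀ x, h x ≤ R → ‖x‖ ≤ B) (r : ℕ → ℝ)
    (hr : Antitone r) (hex : ∀ n, ∃ x, h x ≤ r n) : ∃ x, ∀ n, h x ≤ r n := by
  obtain ⟨B, hB⟩ := hco (r 0)
  refine inter_nonempty (fun n => {x | h x ≤ r n}) hex
    (fun n => isClosed_le hcont continuous_const) (fun n => ?_) (fun n m hnm x hx => ?_) B
    (fun x hx => hB x hx)
  · have := hc.convex_le (r n)
    simpa using this
  · exact le_trans (show h x ≤ r m from hx) (hr hnm)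

theorem exists_min_convex [CompleteSpace H] {h : H → ℝ} (hc : ConvexOn ℝ Set.univ h)
    (hcont : Continuous h) (hco : ∀ R : ℝ, ∃ B : ℝ, ∀ x, h x ≤ R → ‖x‖ ≤ B) :
    ∃ x, ∀ z, h x ≤ h z := by
  by_cases hb : BddBelow (Set.range h)
  · obtain ⟨x, hx⟩ := exists_le_all hc hcont hco (fun n : ℕ => (⨅ x, h x) + 1 / ((n : ℝ) + 1))
      (by
        intro n m hnm
        have h1 : (n : ℝ) ≤ m := by exact_mod_cast hnm
        have h2 : 1 / ((m : ℝ) + 1) ≤ 1 / ((n : ℝ) + 1) :=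
          one_div_le_one_div_of_le (by positivity) (by linarith)
        show (⨅ x, h x) + 1 / ((m : ℝ) + 1) ≤ (⨅ x, h x) + 1 / ((n : ℝ) + 1)
        linarith)
      (by
        intro n
        have h1 : (⨅ x, h x) < (⨅ x, h x) + 1 / ((n : ℝ) + 1) := by
          have : (0 : ℝ) < 1 / ((n : ℝ) + 1) := by positivity
          linarith
        obtain ⟨x, hx⟩ := exists_lt_of_ciInf_lt h1
        exact ⟨x, hx.le⟩)
    refine ⟨x, fun z => ?_⟩
    have h2 : Filter.Tendsto (fun n : ℕ => (⨅ x, h x) + 1 / ((n : ℝ) + 1)) Filter.atTop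
        (𝓝 ((⨅ x, h x) + 0)) :=
      (tendsto_one_div_add_atTop_nhds_zero_nat (𝕜 := ℝ)).const_add _
    have h3 : h x ≤ (⨅ x, h x) + 0 := ge_of_tendsto' h2 hx
    rw [add_zero] at h3
    exact h3.trans (ciInf_le hb z)
  · exfalso
    obtain ⟨x, hx⟩ := exists_le_all hc hcont hco (fun n : ℕ => -(n : ℝ))
      (by
        intro n m hnm
        have h1 : (n : ℝ) ≤ m := by exact_mod_cast hnm
        show -(m : ℝ) ≤ -(n : ℝ)
        linarith)
      (by
        intro n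
        by_contra hcon
        push Not at hcon
        apply hb
        refine ⟨-(n : ℝ), ?_⟩
        rintro _ ⟨x, rfl⟩
        exact (hcon x).le)
    obtain ⟨n, hn⟩ := exists_nat_gt (-h x)
    have := hx n
    linarith

end Pool.Agent.Lib.MP_b414a3_an.LP
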